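import Mathlib
import Pool.Agent.Run7.h752.SC.BridgeLS

/-!
# Closed two-forms with values in a flat line bundle: surfaces tangent to the kernel

`X` is a simply connected closed manifold of dimension `2 (m + 1)` oriented by a volume form, and
`S` is a closed two-form with values in a flat real line bundle with positive transition functions
(locally: a closed two-form up to locally constant positive factors, as for locally conformally
symplectic structures) whose top power is nonnegative. `TwDeg m S` is the set where the top powers
of the local forms vanish.

* There is a global form of `S`: positive locally constant functions `g i` and a closed two-form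
  `σ` which is equal to `g i • S.σ i` on `S.U i`. Its top power is nonnegative.
* For each such `σ` and each closed two-form `ζ` there are a one-form `α` and `c > 0` such that the
  forms `σ + t (ζ + dα)`, `0 < t ≤ c`, are positive symplectic forms with top power at least
  `c t vol` if and only if for every laminated test set `C` of `σ` there is a one-form `α` such that
  `(ζ + dα) ∧ σ ^ m` is nonnegative over `C` and positive at a point of `C`.
* Let `TwDeg m S` be covered by closed sets `F k` such that at each point `z` of `F k ∩ TwDeg m S`
  either this set is small (with respect to a local form), or the `m`-th power of a local form does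
  not vanish and the set contains no disc through `z` tangent to the kernels of the local forms, or
  one can leave `TwDeg m S` from `z` along a vector field tangent to these kernels. Then all this
  holds for all closed `ζ`; in particular `X` is symplectic.
* This is so if the `m`-th powers of the local forms do not vanish on `TwDeg m S` and this set
  contains no disc tangent to their kernels.
-/

set_option autoImplicit false

open Set MeasureTheory
open scoped Manifold ContDiff

namespace Pool.Agent.Results.MP_2a78db_gt.TwistedDiscs

open Pool.Agent.Y501.SYP
open Pool.Agent.R772.SYK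
open Pool.Agent.R772.SYF
open Pool.Agent.R772.SYD
open Pool.Agent.R772.SYM
open Pool.Agent.Q186.FLP
open Run7.h752.SYX

theorem result (m d : ℕ) (hd : d = 2 * (m + 1)) (X : Type) [TopologicalSpace X]
    [ChartedSpace (ES d) X] [IsManifold 𝓘(ℝ, ES d) ∞ X] [CompactSpace X] [T2Space X]
    [SimplyConnectedSpace X]
    (vol : TopForm (ES d) X m) (hvol : IsVolume vol)
    (ι : Type) (S : TwistedForm (ES d) (∅ : Set X) ι) (hS : TwNonneg vol S) :
    (∃ (g : ι → X → ℝ) (σ : Form (ES d) X 2), IsGlobal vol S g σ) ∧
    ∀ (g : ι → X → ℝ) (σ : Form (ES d) X 2), IsGlobal vol S g σ →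
      (∀ ζ : Form (ES d) X 2, IsClosed2 ζ → (Admissible vol σ ζ ↔
        ∀ C : Set X, LamTest vol σ C → ∃ (α : Form (ES d) X 1) (ρ : Form (ES d) X 2),
          ExactPair α ρ ∧ SemiPos vol σ (addF ζ ρ) C)) ∧
      ((∃ F : ℕ → Set X, TwRemovable vol S F) →
        ∀ ζ : Form (ES d) X 2, IsClosed2 ζ → Admissible vol σ ζ) ∧
      ((∀ z ∈ TwDeg m S, (∃ i, z ∈ S.U i ∧ PowNe m (S.σ i) z) ∧ ¬ TwDisc S (TwDeg m S) z) →
        ∀ ζ : Form (ES d) X 2, IsClosed2 ζ → Admissible vol σ ζ) :=
  ⟨exists_global hS, fun _ σ h =>
    ⟨fun _ hζ => lam_tfae hd hvol h.closed h.nonneg hζ,
      fun ⟨_, hF⟩ _ hζ => removable_all hd hvol h.closed h.nonneg (removable_of_tw h hF) hζ,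
      fun hn _ hζ => removable_all hd hvol h.closed h.nonneg
        (removable_of_noDisc (noDisc_of_tw h hn)) hζ⟩⟩

end Pool.Agent.Results.MP_2a78db_gt.TwistedDiscs
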