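import Mathlib
import Pool.Agent.Q186.FL.Final
import Pool.Agent.Run7.h21.MD.Main

/-!
# Pseudoholomorphic modifications and weakly taming forms with values in a flat line bundle

`(X, JX)` and `(Y, JY)` are simply connected closed manifolds of dimension `d ≥ 4` with continuous
almost complex structures, and `f : X → Y` is a modification over a finite set `P` with inverse `g`
off `P` (for example the blow-up of points, or any other pseudoholomorphic map which is invertible
off `P` and whose inverse has a derivative of the growth allowed in `Modification`).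

A twisted form `S` is a closed two-form with values in a flat real line bundle (locally: a closed
two-form `S.σ i`, up to locally constant positive factors, as for locally conformally symplectic
structures), defined off a closed set `K` of codimension more than one and possibly unbounded there.

* `JX` is tamed by a symplectic form if and only if `JY` is weakly tamed by such a twisted form on
  `Y` and some closed two-form on `X` is positive over the points of `P`.
* (Down) A twisted form on `X` which weakly tames `JX` gives a symplectic form on `Y` taming `JY`: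
  for suitable locally constant positive `c i` it is, outside given neighbourhoods of `P` and `K`,
  the push-forward of `c i • S.σ i`, changed by differentials of smooth one-forms.
* (Up) A twisted form on `Y` which weakly tames `JY` and a closed two-form `ζ` on `X` which is
  positive over `P` give symplectic forms on `X` taming `JX`, for all small `t > 0`:
  outside a given neighbourhood of `K` they are `f^* (c i • S.σ i + dα) + t (ζ + dβ)`.
-/

set_option autoImplicit false

open Set MeasureTheory Filter Topology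
open scoped Manifold ContDiff

namespace Pool.Agent.Results.MP_2a78db_gt.TwistedModifications

open Pool.Agent.Y501.SYP Pool.Agent.Q186.FLP Run7.h21.MDP

/-- `K` is a closed set of codimension more than one: in every chart its Hausdorff measure of
dimension `d - 1` is zero. -/
def SmallClosed (d : ℕ) {X : Type} [TopologicalSpace X] [ChartedSpace (ES d) X] (K : Set X) :
    Prop :=
  IsClosed K ∧ ∀ x₀ : X,
    μH[(d : ℝ) - 1] (chartAt (ES d) x₀ '' (K ∩ (chartAt (ES d) x₀).source)) = 0

/-- The factors `c i` are positive and locally constant, and the forms `c i • S.σ i` agree on the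
overlaps: they trivialise the flat line bundle of `S`. -/
def Trivialises {d : ℕ} {X : Type} [TopologicalSpace X] [ChartedSpace (ES d) X] {K : Set X}
    {ι : Type} (S : TwistedForm (ES d) K ι) (c : ι → X → ℝ) : Prop :=
  (∀ i, ∀ x ∈ S.U i, 0 < c i x ∧ ∀ᶠ y in 𝓝 x, c i y = c i x) ∧
    ∀ i j, ∀ x ∈ S.U i ∩ S.U j, c i x * S.c i j x = c j x

section defs

variable {d : ℕ} {X Y : Type} [TopologicalSpace X] [ChartedSpace (ES d) X]
  [TopologicalSpace Y] [ChartedSpace (ES d) Y]

/-- `J` is weakly tamed by a closed two-form with values in a flat real line bundle, off a closed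
set of codimension more than one. -/
def WeaklyTamed (J : End (ES d) X) : Prop :=
  ∃ K : Set X, SmallClosed d K ∧ ∃ (ι : Type) (S : TwistedForm (ES d) K ι), S.WeaklyTames J

/-- The closed two-form `ζ` on `X` is positive over all points of `P`. -/
def PositiveOverAll (f : X → Y) (P : Set Y) (JX : End (ES d) X) (ζ : Form (ES d) X 2) : Prop :=
  IsSmooth ζ ∧ IsClosedForm ζ ∧ ∀ p ∈ P, PositiveOver f ζ JX p

/-- `η` is the differential of a smooth one-form. -/
def ExactForm (η : Form (ES d) X 2) : Prop :=
  IsSmooth η ∧ ∃ α : Form (ES d) X 1, IsSmooth α ∧ IsD α η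

/-- For suitable factors `c` which trivialise `S` and all open `O ⊇ K`, `U ⊇ P` there is a
symplectic form taming `JY` which off `U` and off `g ⁻¹ O` is the pull-back by `g` of the form
`c i • S.σ i` plus an exact form, plus an exact form. -/
def PushesDown {K : Set X} {ι : Type} (S : TwistedForm (ES d) K ι) (JY : End (ES d) Y)
    (g : Y → X) (P : Set Y) : Prop :=
  ∃ c : ι → X → ℝ, Trivialises S c ∧ ∀ (O : Set X) (U : Set Y), IsOpen O → K ⊆ O → IsOpen U →
    P ⊆ U → ∃ (η : Form (ES d) X 2) (θ w : Form (ES d) Y 2), ExactForm η ∧ ExactForm θ ∧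
      IsTamingSymplectic w JY ∧ ∀ i, ∀ y, y ∉ U → g y ∈ S.U i → g y ∉ O →
        w y = addF (pullF g (fun x => c i x • S.σ i x + η x)) θ y

/-- For suitable factors `c` which trivialise `S`, all open `O ⊇ K` and all closed `ζ` positive over
`P` there are a symplectic form `w` taming `JY`, equal to `c i • S.σ i` plus an exact form off
`O`, and an exact form `θ` on `X` such that `f^* w + t (ζ + θ)` is symplectic and tames `JX` for
all small `t > 0`. -/
def PullsUp {K : Set Y} {ι : Type} (S : TwistedForm (ES d) K ι) (JX : End (ES d) X)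
    (JY : End (ES d) Y) (f : X → Y) (P : Set Y) : Prop :=
  ∃ c : ι → Y → ℝ, Trivialises S c ∧ ∀ (O : Set Y) (ζ : Form (ES d) X 2), IsOpen O → K ⊆ O →
    PositiveOverAll f P JX ζ → ∃ (η w : Form (ES d) Y 2) (θ : Form (ES d) X 2),
      ExactForm η ∧ ExactForm θ ∧ IsTamingSymplectic w JY ∧
      (∀ i, ∀ y ∈ S.U i, y ∉ O → w y = c i y • S.σ i y + η y) ∧
      ∃ t₀ : ℝ, 0 < t₀ ∧ ∀ t : ℝ, 0 < t → t ≤ t₀ →
        IsTamingSymplectic (comb (pullF f w) t (addF ζ θ)) JX

end defs

theorem result (d : ℕ) (hd : 4 ≤ d) (X Y : Type)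
    [TopologicalSpace X] [ChartedSpace (ES d) X] [IsManifold 𝓘(ℝ, ES d) ∞ X] [CompactSpace X]
    [T2Space X] [SimplyConnectedSpace X]
    [TopologicalSpace Y] [ChartedSpace (ES d) Y] [IsManifold 𝓘(ℝ, ES d) ∞ Y]
    [CompactSpace Y] [T2Space Y] [SimplyConnectedSpace Y] (JX : End (ES d) X) (JY : End (ES d) Y)
    (hX : IsAlmostComplex JX) (hY : IsAlmostComplex JY) (f : X → Y) (g : Y → X) (P : Set Y)
    (h : Modification JX JY f g P) :
    ((∃ σ : Form (ES d) X 2, IsTamingSymplectic σ JX) ↔
      WeaklyTamed JY ∧ ∃ ζ : Form (ES d) X 2, PositiveOverAll f P JX ζ) ∧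
    (∀ K : Set X, SmallClosed d K → ∀ (ι : Type) (S : TwistedForm (ES d) K ι),
      S.WeaklyTames JX → PushesDown S JY g P) ∧
    (∀ K : Set Y, SmallClosed d K → ∀ (ι : Type) (S : TwistedForm (ES d) K ι),
      S.WeaklyTames JY → PullsUp S JX JY f P) := by
  have hd3 : 3 ≤ d := by omega
  refine ⟨?_, ?_, ?_⟩
  · rw [main hd hX hY h]
    refine and_congr ⟨?_, ?_⟩ Iff.rfl
    · rintro ⟨w, hw⟩
      obtain ⟨S, hS⟩ := weak_of hY hw
      exact ⟨∅, ⟨isClosed_empty, fun x₀ => by simp⟩, Unit, S, hS⟩
    · rintro ⟨K, hK, ι, S, hS⟩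
      obtain ⟨c, -, -, h1⟩ := flat hd3 JY hY K hK.1 hK.2 S hS
      obtain ⟨-, -, w, -, -, -, hw, -⟩ := h1 univ isOpen_univ (subset_univ K)
      exact ⟨w, hw⟩
  · intro K hK ι S hS
    obtain ⟨c, hc1, hc2, h1⟩ := flat hd3 JX hX K hK.1 hK.2 S hS
    refine ⟨c, ⟨hc1, hc2⟩, fun O U hO hKO hU hPU => ?_⟩
    obtain ⟨α, η, w, a1, a2, a3, hw, a5⟩ := h1 O hO hKO
    obtain ⟨β, θ, w', b1, b2, b3, hw', b5⟩ := contraction hd hX hY h w hw U hU hPU
    refine ⟨η, θ, w', ⟨a2, α, a1, a3⟩, ⟨b2, β, b1, b3⟩, hw', fun i y hyU hgy hgO => ?_⟩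
    rw [b5 y hyU]
    have e : pullF g w y = pullF g (fun x => c i x • S.σ i x + η x) y := by
      unfold pullF
      rw [a5 i (g y) hgy hgO]
    unfold addF
    rw [e]
  · intro K hK ι S hS
    obtain ⟨c, hc1, hc2, h1⟩ := flat hd3 JY hY K hK.1 hK.2 S hS
    refine ⟨c, ⟨hc1, hc2⟩, fun O ζ hO hKO hζ => ?_⟩
    obtain ⟨α, η, w, a1, a2, a3, hw, a5⟩ := h1 O hO hKO
    obtain ⟨β, θ, b1, b2, b3, t₀, ht, h2⟩ := blowup hX h w ζ hw hζ.1 hζ.2.1 hζ.2.2
    exact ⟨η, w, θ, ⟨a2, α, a1, a3⟩, ⟨b2, β, b1, b3⟩, hw, a5, t₀, ht, h2⟩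

end Pool.Agent.Results.MP_2a78db_gt.TwistedModifications
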