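import Mathlib
import Pool.Agent.Run7.h752.SC.BridgeLS
import Pool.Agent.Run7.h752.SC.BridgeN3

/-!
# Closed two-forms with values in a flat line bundle: locally finite area

`X` is a simply connected closed manifold of dimension `2 (m + 1)` oriented by a volume form, and
`S` is a closed two-form with values in a flat real line bundle with positive transition functions
(locally: a closed two-form up to locally constant positive factors, as for locally conformally
symplectic structures) whose top power is nonnegative. `TwDeg m S` is the set where the top powers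
of the local forms vanish. We assume that the `m`-th powers of the local forms do not vanish on
`TwDeg m S`, and that this set has finite two-dimensional Hausdorff measure near each of its points.

* There is a global form of `S`: positive locally constant functions `g i` and a closed two-form
  `σ` which is equal to `g i • S.σ i` on `S.U i`. Its top power is nonnegative.
* For each such `σ` there are finitely many closed currents `μ 0, …, μ (r - 1)` whose supports are
  pairwise disjoint compact connected smooth surfaces in `Deg m σ`, tangent to the kernel of `σ`,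
  and every closed current is a combination of them with nonnegative coefficients.
* For a closed two-form `ζ` there are a one-form `α` and `c > 0` such that the forms
  `σ + t (ζ + dα)`, `0 < t ≤ c`, are positive symplectic forms with top power at least `c t vol`, if
  and only if the integral of `ζ` over each of `μ 0, …, μ (r - 1)` is positive.
* If the classes of `ζ 0, …, ζ (n - 1)` span the second cohomology, then the forms `σ + t η`,
  `0 < t ≤ c`, are positive symplectic forms with top power at least `c t vol` for some closed
  two-form `η` and some `c > 0` if and only if no combination of `μ 0, …, μ (r - 1)` with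
  nonnegative coefficients, not all zero, vanishes on `ζ 0, …, ζ (n - 1)`.
-/

set_option autoImplicit false

open Set MeasureTheory
open scoped Manifold ContDiff NNReal

namespace Pool.Agent.Results.MP_2a78db_gt.TwistedSurfaces

open Pool.Agent.Y501.SYP
open Pool.Agent.R772.SYK
open Pool.Agent.R772.SYF
open Pool.Agent.R772.SYD
open Pool.Agent.R772.SYM
open Pool.Agent.Q186.FLP
open Run7.h752.SYX

theorem result (m d : ℕ) (hd : d = 2 * (m + 1)) (X : Type) [TopologicalSpace X]
    [ChartedSpace (ES d) X] [IsManifold 𝓘(ℝ, ES d) ∞ X] [CompactSpace X] [T2Space X]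
    [SimplyConnectedSpace X] [MeasurableSpace X] [BorelSpace X]
    (vol : TopForm (ES d) X m) (hvol : IsVolume vol)
    (ι : Type) (S : TwistedForm (ES d) (∅ : Set X) ι) (hS : TwNonneg vol S)
    (hr : ∀ z ∈ TwDeg m S, ∃ i, z ∈ S.U i ∧ PowNe m (S.σ i) z)
    (hf : ∀ z ∈ TwDeg m S, FiniteArea (ES d) (TwDeg m S) z) :
    (∃ (g : ι → X → ℝ) (σ : Form (ES d) X 2), IsGlobal vol S g σ) ∧
    ∀ (g : ι → X → ℝ) (σ : Form (ES d) X 2), IsGlobal vol S g σ →
      ∃ (r : ℕ) (μ : Fin r → Measure X),
        (∀ i, IsClosedCurrent vol σ (μ i) ∧ KernelSurface m σ (μ i).support) ∧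
        (∀ i j, i ≠ j → Disjoint (μ i).support (μ j).support) ∧
        (∀ ν : Measure X, IsClosedCurrent vol σ ν → ∃ c : Fin r → ℝ≥0, ν = ∑ i, c i • μ i) ∧
        (∀ ζ : Form (ES d) X 2, IsClosed2 ζ →
          (Admissible vol σ ζ ↔ ∀ i, 0 < ∫ x, density vol σ ζ x ∂(μ i))) ∧
        ∀ (n : ℕ) (ζ : Fin n → Form (ES d) X 2), Spans ζ →
          ((∃ (η : Form (ES d) X 2) (c : ℝ), IsClosed2 η ∧ SymplecticUpTo vol σ η c) ↔
            ¬ ∃ c : Fin r → ℝ, (∀ i, 0 ≤ c i) ∧ (∃ i, c i ≠ 0) ∧
              ∀ j, ∑ i, c i * ∫ x, density vol σ (ζ j) x ∂(μ i) = 0) := by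
  refine ⟨exists_global hS, fun g σ h => ?_⟩
  refine area_main hd hvol h.closed h.nonneg ?_ ?_
  · rw [h.deg]
    intro z hz
    obtain ⟨i, hi, h1⟩ := hr z hz
    exact (powNe_scale (h.pos i z hi) (h.eq i z hi)).2 h1
  · rw [h.deg]
    exact hf

end Pool.Agent.Results.MP_2a78db_gt.TwistedSurfaces
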