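import Mathlib
import Pool.Agent.Run7.h752.SC.BridgeS

/-!
# Closed two-forms with values in a flat line bundle and nonnegative top power

`X` is a simply connected closed manifold of dimension `2 (m + 1)` oriented by a volume form, and
`S` is a closed two-form with values in a flat real line bundle with positive transition functions
(locally: a closed two-form up to locally constant positive factors, as for locally conformally
symplectic structures) whose top power is nonnegative.

* There is a global form of `S`: positive locally constant functions `g i` and a closed two-form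
  `σ` which is equal to `g i • S.σ i` on `S.U i`. Its top power is nonnegative.
* For a closed two-form `ζ` there are a one-form `α` and `c > 0` such that the forms
  `σ + t (ζ + dα)`, `0 < t ≤ c`, are positive symplectic forms with top power at least `c t vol` if
  and only if the integral of `ζ` over each extremal closed current (carried by the set where the
  top power vanishes) is positive.
* If the classes of the closed forms `ζ 0, …, ζ (n - 1)` span the second cohomology, then the forms
  `σ + t η`, `0 < t ≤ c`, are positive symplectic forms with top power at least `c t vol` for some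
  closed two-form `η` and some `c > 0` if and only if there are no `r ≤ n + 1` extremal closed
  currents, `r > 0`, whose sum vanishes on `ζ 0, …, ζ (n - 1)`.
* If the set where the top power of `S` vanishes is a countable union of closed parts which are
  small at their points, then all this holds for all `ζ`; in particular, `X` is symplectic.
-/

set_option autoImplicit false

open Set MeasureTheory
open scoped Manifold ContDiff

namespace Pool.Agent.Results.MP_2a78db_gt.TwistedTopPower

open Pool.Agent.Y501.SYP
open Pool.Agent.R772.SYK
open Pool.Agent.R772.SYF
open Pool.Agent.R772.SYD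
open Pool.Agent.R772.SYM
open Pool.Agent.Q186.FLP
open Run7.h752.SYX

theorem result (m d : ℕ) (hd : d = 2 * (m + 1)) (X : Type) [TopologicalSpace X]
    [ChartedSpace (ES d) X] [IsManifold 𝓘(ℝ, ES d) ∞ X] [CompactSpace X] [T2Space X]
    [SimplyConnectedSpace X] [MeasurableSpace X] [BorelSpace X]
    (vol : TopForm (ES d) X m) (hvol : IsVolume vol)
    (ι : Type) (S : TwistedForm (ES d) (∅ : Set X) ι) (hS : TwNonneg vol S) :
    (∃ (g : ι → X → ℝ) (σ : Form (ES d) X 2), IsGlobal vol S g σ) ∧
    ∀ (g : ι → X → ℝ) (σ : Form (ES d) X 2), IsGlobal vol S g σ →
      (∀ ζ : Form (ES d) X 2, IsClosed2 ζ → (Admissible vol σ ζ ↔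
        ∀ μ : Measure X, Extremal vol σ μ → 0 < ∫ x, density vol σ ζ x ∂μ)) ∧
      (∀ (n : ℕ) (ζ : Fin n → Form (ES d) X 2), Spans ζ →
        ((∃ (η : Form (ES d) X 2) (c : ℝ), IsClosed2 η ∧ SymplecticUpTo vol σ η c) ↔
          ¬ ∃ (r : ℕ) (μ : Fin r → Measure X), NullSum vol σ ζ r μ)) ∧
      ((∃ F : ℕ → Set X, TwCountablySmall vol S F) →
        ∀ ζ : Form (ES d) X 2, IsClosed2 ζ → Admissible vol σ ζ) :=
  ⟨exists_global hS, fun _ σ h =>
    ⟨fun _ hζ => (one_tfae hd hvol h.closed h.nonneg hζ).out 0 1,
      fun _ _ hζ => span_iff hd hvol h.closed h.nonneg hζ,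
      fun ⟨F, hF⟩ ζ hζ => countable hd vol hvol σ h.closed h.nonneg F (countably_global h hF) ζ hζ⟩⟩

end Pool.Agent.Results.MP_2a78db_gt.TwistedTopPower
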